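import Pool.Agent.Helper24.CC.Space

/-!
# Locally compact cellular-compact spaces which are far from weakly Lindelöf

For every infinite cardinal `κ` there is a locally compact Hausdorff space which is not compact, in which
every cellular family is met by a compact set and in which the union of at most `κ` compact sets has compact
closure. So it is cellular-Lindelöf (even cellular-compact), and it has an open cover of which no subfamily
of size at most `κ` has a dense union.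
-/

set_option autoImplicit false

namespace Pool.Agent.Results.MP_f268c4_gt.CellularCompact

theorem result (κ : Cardinal.{0}) (hκ : Cardinal.aleph0 ≤ κ) :
    ∃ (X : Type) (_ : TopologicalSpace X), T2Space X ∧ LocallyCompactSpace X ∧ ¬ CompactSpace X ∧
      (∀ 𝒰 : Set (Set X), (∀ U ∈ 𝒰, IsOpen U ∧ U.Nonempty) → 𝒰.PairwiseDisjoint id →
        ∃ L : Set X, IsCompact L ∧ ∀ U ∈ 𝒰, (L ∩ U).Nonempty) ∧
      (∀ 𝒦 : Set (Set X), (∀ K ∈ 𝒦, IsCompact K) → Cardinal.mk 𝒦 ≤ κ →
        IsCompact (closure (⋃₀ 𝒦))) ∧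
      (∃ 𝒱 : Set (Set X), (∀ V ∈ 𝒱, IsOpen V) ∧ ⋃₀ 𝒱 = Set.univ ∧
        ∀ 𝒲 : Set (Set X), 𝒲 ⊆ 𝒱 → Cardinal.mk 𝒲 ≤ κ → ¬ Dense (⋃₀ 𝒲)) := by
  have h1 : Cardinal.mk κ.out = κ := Cardinal.mk_out κ
  have : Infinite κ.out := by
    rw [Cardinal.infinite_iff, h1]
    exact hκ
  refine ⟨Helper24.CC.X κ.out, inferInstance, inferInstance, inferInstance,
    Helper24.CC.not_compact, Helper24.CC.cellular, ?_, ?_⟩
  · intro 𝒦 hK hc
    exact Helper24.CC.bounded 𝒦 hK (hc.trans h1.ge)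
  · obtain ⟨𝒱, h2, h3, h4⟩ := Helper24.CC.not_weakly (κ := κ.out)
    exact ⟨𝒱, h2, h3, fun 𝒲 hW hc => h4 𝒲 hW (hc.trans h1.ge)⟩

end Pool.Agent.Results.MP_f268c4_gt.CellularCompact
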